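import Mathlib

/-!
Every contraction on a nonempty complete F-symmetric space has a fixed point.
-/

namespace Pool.Agent.Results.MP_9f7db3_an.Main

open Filter Topology

/-- `d` is a symmetric on `X` (nonnegative, symmetric, vanishing exactly on the diagonal)
satisfying condition (F). -/
structure IsFSymmetric {X : Type*} (d : X → X → ℝ) : Prop where
  nonneg : ∀ x y, 0 ≤ d x y
  symm : ∀ x y, d x y = d y x
  eq_zero_iff : ∀ x y, d x y + d y x = 0 ↔ x = y
  condF : ∀ ε > 0, ∃ δ > 0, ∀ x y z, d x y ≤ δ → d y z ≤ δ → d x z ≤ ε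

/-- `d (u n) (u m) → 0` as `n, m → ∞`. -/
def IsCauchySeq {X : Type*} (d : X → X → ℝ) (u : ℕ → X) : Prop :=
  ∀ ε > 0, ∃ N, ∀ n ≥ N, ∀ m ≥ N, d (u n) (u m) < ε

/-- `d x (u n) → 0` as `n → ∞`. -/
def ConvergesTo {X : Type*} (d : X → X → ℝ) (u : ℕ → X) (x : X) : Prop :=
  Tendsto (fun n => d x (u n)) atTop (𝓝 0)

/-- every Cauchy sequence converges -/
def IsCompleteDist {X : Type*} (d : X → X → ℝ) : Prop :=
  ∀ u : ℕ → X, IsCauchySeq d u → ∃ x, ConvergesTo d u x

/-- `g` is a contraction -/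
def IsContraction {X : Type*} (d : X → X → ℝ) (g : X → X) : Prop :=
  ∃ l : ℝ, 0 ≤ l ∧ l < 1 ∧ ∀ x y, d (g x) (g y) ≤ l * d x y

section

variable {X : Type*} {d : X → X → ℝ} {g : X → X} {l : ℝ}

theorem iterate_le (h0 : 0 ≤ l) (hg : ∀ x y, d (g x) (g y) ≤ l * d x y)
    (n : ℕ) (x y : X) : d (g^[n] x) (g^[n] y) ≤ l ^ n * d x y := by
  induction n with
  | zero => simp
  | succ n ih =>
    rw [Function.iterate_succ_apply', Function.iterate_succ_apply', pow_succ]
    calc d (g (g^[n] x)) (g (g^[n] y)) ≤ l * d (g^[n] x) (g^[n] y) := hg _ _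
      _ ≤ l * (l ^ n * d x y) := mul_le_mul_of_nonneg_left ih h0
      _ = l ^ n * l * d x y := by ring

theorem eq_of_dist_zero (hd : IsFSymmetric d) {x y : X} (h : d x y = 0) : x = y := by
  rw [← hd.eq_zero_iff, hd.symm y x, h]; norm_num

/-- main step: a contraction `h` with constant `≤ δ` (and `< 1`) which moves `p` by at most `δ`
has a fixed point. -/
theorem fixed_of_small (hd : IsFSymmetric d) (hc : IsCompleteDist d) {h : X → X} {m δ : ℝ}
    (hm0 : 0 ≤ m) (hm1 : m < 1) (hmδ : m ≤ δ)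
    (hh : ∀ x y, d (h x) (h y) ≤ m * d x y)
    (hδ : ∀ x y z, d x y ≤ δ → d y z ≤ δ → d x z ≤ 1)
    {p : X} (hp : d p (h p) ≤ δ) : ∃ z, h z = z := by
  have hball : ∀ k, d p (h^[k] p) ≤ 1 := by
    intro k
    induction k with
    | zero =>
      have : d p p = 0 := by
        have := (hd.eq_zero_iff p p).mpr rfl
        linarith
      simp [this]
    | succ k ih =>
      rw [Function.iterate_succ_apply']
      apply hδ p (h p) _ hp
      calc d (h p) (h (h^[k] p)) ≤ m * d p (h^[k] p) := hh _ _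
        _ ≤ m * 1 := mul_le_mul_of_nonneg_left ih hm0
        _ ≤ δ := by linarith
  have hdist : ∀ k j, d (h^[k] p) (h^[k + j] p) ≤ m ^ k := by
    intro k j
    rw [Function.iterate_add_apply]
    calc d (h^[k] p) (h^[k] (h^[j] p)) ≤ m ^ k * d p (h^[j] p) := iterate_le hm0 hh k _ _
      _ ≤ m ^ k * 1 := mul_le_mul_of_nonneg_left (hball j) (pow_nonneg hm0 k)
      _ = m ^ k := mul_one _
  have hcau : IsCauchySeq d (fun k => h^[k] p) := by
    intro ε hε
    obtain ⟨N, hN⟩ := exists_pow_lt_of_lt_one hε hm1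
    refine ⟨N, ?_⟩
    have haux : ∀ n ≥ N, ∀ j ≥ n, d (h^[n] p) (h^[j] p) < ε := by
      intro n hn j hj
      obtain ⟨i, rfl⟩ := Nat.exists_eq_add_of_le hj
      calc d (h^[n] p) (h^[n + i] p) ≤ m ^ n := hdist n i
        _ ≤ m ^ N := pow_le_pow_of_le_one hm0 hm1.le hn
        _ < ε := hN
    intro n hn j hj
    rcases le_total n j with h1 | h1
    · exact haux n hn j h1
    · simp only
      rw [hd.symm]
      exact haux j hj n h1
  obtain ⟨z, hz⟩ := hc _ hcau
  refine ⟨z, ?_⟩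
  -- uniqueness of limits
  have hle : ∀ ε > 0, d z (h z) ≤ ε := by
    intro ε hε
    obtain ⟨η, hη, hF⟩ := hd.condF ε hε
    have h1 : ∀ᶠ k in atTop, d z (h^[k] p) < η := hz.eventually (gt_mem_nhds hη)
    rw [eventually_atTop] at h1
    obtain ⟨K, hK⟩ := h1
    apply hF z (h^[K + 1] p) (h z) (hK (K + 1) (Nat.le_succ K)).le
    rw [Function.iterate_succ_apply', hd.symm]
    calc d (h z) (h (h^[K] p)) ≤ m * d z (h^[K] p) := hh _ _
      _ ≤ 1 * d z (h^[K] p) := mul_le_mul_of_nonneg_right hm1.le (hd.nonneg _ _)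
      _ = d z (h^[K] p) := one_mul _
      _ ≤ η := (hK K le_rfl).le
  have h0 : d z (h z) = 0 := le_antisymm (le_of_forall_pos_le_add (by
    intro ε hε; rw [zero_add]; exact hle ε hε)) (hd.nonneg _ _)
  exact (eq_of_dist_zero hd h0).symm

end

/-- Every contraction `g` of a nonempty complete F-symmetric space has a fixed point; moreover it
is unique, and every Picard orbit converges to it. -/
theorem result {X : Type*} [Nonempty X] (d : X → X → ℝ) (hd : IsFSymmetric d)
    (hc : IsCompleteDist d) (g : X → X) (hg : IsContraction d g) :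
    ∃ z, g z = z ∧ (∀ y, g y = y → y = z) ∧ ∀ y, ConvergesTo d (fun n => g^[n] y) z := by
  obtain ⟨l, h0, h1, hgl⟩ := hg
  obtain ⟨δ, hδ, hF⟩ := hd.condF 1 one_pos
  -- choose m ≥ 1 with l^m ≤ δ
  have hpow : Tendsto (fun n : ℕ => l ^ n) atTop (𝓝 0) := tendsto_pow_atTop_nhds_zero_of_lt_one h0 h1
  obtain ⟨m, hm⟩ := ((hpow.eventually (gt_mem_nhds hδ)).and
    ((hpow.eventually (gt_mem_nhds (one_pos : (0:ℝ) < 1))))).exists
  have hh : ∀ x y, d (g^[m] x) (g^[m] y) ≤ l ^ m * d x y := fun x y => iterate_le h0 hgl m x y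
  obtain ⟨x0⟩ := ‹Nonempty X›
  have hlim : Tendsto (fun n : ℕ => l ^ n * d x0 (g^[m] x0)) atTop (𝓝 0) := by
    simpa using hpow.mul_const (d x0 (g^[m] x0))
  obtain ⟨N, hN⟩ := (hlim.eventually (gt_mem_nhds hδ)).exists
  have hp : d (g^[N] x0) (g^[m] (g^[N] x0)) ≤ δ := by
    rw [← Function.iterate_add_apply, Nat.add_comm, Function.iterate_add_apply]
    exact (iterate_le h0 hgl N _ _).trans hN.le
  obtain ⟨z, hz⟩ := fixed_of_small hd hc (pow_nonneg h0 m) hm.2 hm.1.le hh hF hp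
  have huniq : ∀ {f : X → X} {c : ℝ}, c < 1 → (∀ x y, d (f x) (f y) ≤ c * d x y) →
      ∀ a b, f a = a → f b = b → a = b := by
    intro f c hc1 hf a b ha hb
    have h2 := hf a b
    rw [ha, hb] at h2
    have h3 := hd.nonneg a b
    apply eq_of_dist_zero hd
    nlinarith
  have hgz : g z = z := by
    apply huniq hm.2 hh (g z) z _ hz
    rw [← Function.iterate_succ_apply, Function.iterate_succ_apply', hz]
  refine ⟨z, hgz, ?_, ?_⟩
  · intro y hy
    exact huniq h1 hgl y z hy hgz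
  · intro y
    have hz' : ∀ n, g^[n] z = z := fun n => Function.iterate_fixed hgz n
    have h2 : ∀ n, d z (g^[n] y) ≤ l ^ n * d z y := by
      intro n
      have := iterate_le h0 hgl n z y
      rw [hz'] at this
      exact this
    have h3 : Tendsto (fun n : ℕ => l ^ n * d z y) atTop (𝓝 0) := by
      simpa using hpow.mul_const (d z y)
    exact squeeze_zero (fun n => hd.nonneg _ _) h2 h3

end Pool.Agent.Results.MP_9f7db3_an.Main
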